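import Pool.Agent.Helper41.LD.Defs

/-!
# LD6: from sums of tensor Haar functions to boxes
-/

set_option autoImplicit false

namespace Pool.Agent.Helper59.LD6

open Finset
open Pool.Agent.Helper41.LD (haar ind)

/-- the conditional expectation of the indicator of `[0, g)` on the dyadic intervals of level `k` -/
noncomputable def cond (g : ℝ) (k : ℕ) (y : ℝ) : ℝ :=
  if ⌊(2 : ℝ) ^ k * Int.fract y⌋ < ⌊(2 : ℝ) ^ k * g⌋ then 1
  else if ⌊(2 : ℝ) ^ k * Int.fract y⌋ = ⌊(2 : ℝ) ^ k * g⌋ then Int.fract ((2 : ℝ) ^ k * g) else 0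

/-- the Haar coefficient -/
noncomputable def co (g : ℝ) (k : ℕ) : ℝ := min (Int.fract ((2 : ℝ) ^ k * g)) (1 - Int.fract ((2 : ℝ) ^ k * g))

theorem co_nonneg (g : ℝ) (k : ℕ) : 0 ≤ co g k :=
  le_min (Int.fract_nonneg _) (by linarith [Int.fract_lt_one ((2 : ℝ) ^ k * g)])

theorem co_le (g : ℝ) (k : ℕ) : co g k ≤ 1 / 2 := by
  have h1 : co g k ≤ Int.fract ((2 : ℝ) ^ k * g) := min_le_left _ _
  have h2 : co g k ≤ 1 - Int.fract ((2 : ℝ) ^ k * g) := min_le_right _ _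
  linarith

theorem floor_two (z : ℝ) :
    (Int.fract z < 1 / 2 ∧ ⌊2 * z⌋ = 2 * ⌊z⌋ ∧ Int.fract (2 * z) = 2 * Int.fract z) ∨
      (1 / 2 ≤ Int.fract z ∧ ⌊2 * z⌋ = 2 * ⌊z⌋ + 1 ∧ Int.fract (2 * z) = 2 * Int.fract z - 1) := by
  have h0 := Int.fract_nonneg z
  have h1 := Int.fract_lt_one z
  have h2 : z = ⌊z⌋ + Int.fract z := (Int.floor_add_fract z).symm
  rcases lt_or_ge (Int.fract z) (1 / 2) with h | h
  · have h3 : ⌊2 * z⌋ = 2 * ⌊z⌋ := by
      rw [Int.floor_eq_iff]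
      push_cast
      constructor <;> linarith
    refine Or.inl ⟨h, h3, ?_⟩
    rw [Int.fract, h3]
    push_cast
    linarith
  · have h3 : ⌊2 * z⌋ = 2 * ⌊z⌋ + 1 := by
      rw [Int.floor_eq_iff]
      push_cast
      constructor <;> linarith
    refine Or.inr ⟨h, h3, ?_⟩
    rw [Int.fract, h3]
    push_cast
    linarith

theorem cond_succ {g : ℝ} (hg : 0 ≤ g) (k : ℕ) (y : ℝ) :
    cond g (k + 1) y = cond g k y + co g k * haar k ⌊(2 : ℝ) ^ k * g⌋₊ y := by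
  have hb : ((⌊(2 : ℝ) ^ k * g⌋₊ : ℕ) : ℤ) = ⌊(2 : ℝ) ^ k * g⌋ := Int.natCast_floor_eq_floor (by positivity)
  have e1 : (2 : ℝ) ^ (k + 1) * Int.fract y = 2 * ((2 : ℝ) ^ k * Int.fract y) := by ring
  have e2 : (2 : ℝ) ^ (k + 1) * g = 2 * ((2 : ℝ) ^ k * g) := by ring
  unfold cond co haar ind
  push_cast
  rw [hb, e1, e2]
  set z := (2 : ℝ) ^ k * Int.fract y
  set w := (2 : ℝ) ^ k * g
  set A := ⌊z⌋
  set B := ⌊w⌋
  set t := Int.fract w
  rcases floor_two z with ⟨hz, hz1, hz2⟩ | ⟨hz, hz1, hz2⟩ <;> rcases floor_two w with ⟨hw, hw1, hw2⟩ | ⟨hw, hw1, hw2⟩ <;>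
    rw [hz1, hw1, hw2] <;> rcases lt_trichotomy A B with h | h | h
  · have m : min t (1 - t) = t := min_eq_left (by linarith)
    rw [if_pos (by omega), if_pos h, if_neg (by omega), if_neg (by omega)]; ring
  · have m : min t (1 - t) = t := min_eq_left (by linarith)
    rw [if_neg (by omega), if_pos (by omega), if_neg (by omega), if_pos h, if_pos (by omega), if_neg (by omega), m]; ring
  · rw [if_neg (by omega), if_neg (by omega), if_neg (by omega), if_neg (by omega), if_neg (by omega), if_neg (by omega)]; ring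
  · rw [if_pos (by omega), if_pos h, if_neg (by omega), if_neg (by omega)]; ring
  · have m : min t (1 - t) = 1 - t := min_eq_right (by linarith)
    rw [if_pos (by omega), if_neg (by omega), if_pos h, if_pos (by omega), if_neg (by omega), m]; ring
  · rw [if_neg (by omega), if_neg (by omega), if_neg (by omega), if_neg (by omega), if_neg (by omega), if_neg (by omega)]; ring
  · rw [if_pos (by omega), if_pos h, if_neg (by omega), if_neg (by omega)]; ring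
  · have m : min t (1 - t) = t := min_eq_left (by linarith)
    rw [if_neg (by omega), if_neg (by omega), if_neg (by omega), if_pos h, if_neg (by omega), if_pos (by omega), m]; ring
  · rw [if_neg (by omega), if_neg (by omega), if_neg (by omega), if_neg (by omega), if_neg (by omega), if_neg (by omega)]; ring
  · rw [if_pos (by omega), if_pos h, if_neg (by omega), if_neg (by omega)]; ring
  · have m : min t (1 - t) = 1 - t := min_eq_right (by linarith)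
    rw [if_neg (by omega), if_pos (by omega), if_neg (by omega), if_pos h, if_neg (by omega), if_pos (by omega), m]; ring
  · rw [if_neg (by omega), if_neg (by omega), if_neg (by omega), if_neg (by omega), if_neg (by omega), if_neg (by omega)]; ring

theorem cond_zero {g : ℝ} (hg : 0 ≤ g) (hg1 : g ≤ 1) (y : ℝ) : cond g 0 y = g := by
  unfold cond
  rw [pow_zero, one_mul, one_mul]
  have h1 : ⌊Int.fract y⌋ = 0 := Int.floor_eq_zero_iff.2 ⟨Int.fract_nonneg y, Int.fract_lt_one y⟩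
  rw [h1]
  rcases hg1.lt_or_eq with h | h
  · have h2 : ⌊g⌋ = 0 := Int.floor_eq_zero_iff.2 ⟨hg, h⟩
    rw [h2, if_neg (by omega), if_pos rfl, Int.fract, h2]
    simp
  · rw [h, Int.floor_one, if_pos (by omega)]

theorem cond_sum {g : ℝ} (hg : 0 ≤ g) (hg1 : g ≤ 1) (K : ℕ) (y : ℝ) :
    cond g K y = g + ∑ k ∈ range K, co g k * haar k ⌊(2 : ℝ) ^ k * g⌋₊ y := by
  induction K with
  | zero => simp [cond_zero hg hg1]
  | succ K ih => rw [cond_succ hg, ih, sum_range_succ]; ring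

/-- the indicator of a dyadic interval `[0, c / 2 ^ K)` -/
theorem indic {K c : ℕ} (hc : c ≤ 2 ^ K) (y : ℝ) :
    (if Int.fract y < c / 2 ^ K then (1 : ℝ) else 0) =
      c / 2 ^ K + ∑ k ∈ range K, co (c / 2 ^ K) k * haar k ⌊(2 : ℝ) ^ k * (c / 2 ^ K)⌋₊ y := by
  have hp : (0 : ℝ) < 2 ^ K := by positivity
  have hc' : (c : ℝ) ≤ 2 ^ K := by exact_mod_cast hc
  rw [← cond_sum (by positivity) ((div_le_one hp).2 hc')]
  unfold cond
  have e : (2 : ℝ) ^ K * (c / 2 ^ K) = (c : ℝ) := by field_simp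
  have e2 : ⌊((c : ℕ) : ℝ)⌋ = (c : ℤ) := Int.floor_natCast c
  rw [e, e2, Int.fract_natCast]
  have h1 : ⌊(2 : ℝ) ^ K * Int.fract y⌋ < (c : ℤ) ↔ Int.fract y < c / 2 ^ K := by
    rw [Int.floor_lt, lt_div_iff₀ hp, mul_comm]
    push_cast
    exact Iff.rfl
  by_cases h : Int.fract y < c / 2 ^ K
  · rw [if_pos h, if_pos (h1.2 h)]
  · rw [if_neg h, if_neg (fun h2 => h (h1.1 h2))]
    simp

/-- a one dimensional test function: constant or a Haar function -/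
noncomputable def hf (q : Option (ℕ × ℕ)) (y : ℝ) : ℝ := q.elim 1 fun p => haar p.1 p.2 y

theorem haar_big {k i : ℕ} (hi : 2 ^ k ≤ i) (y : ℝ) : haar k i y = 0 := by
  have h : ∀ j : ℕ, 2 ^ (k + 1) ≤ j → ind (k + 1) j y = 0 := by
    intro j hj
    unfold ind
    have hj' : (2 : ℝ) ^ (k + 1) ≤ j := by exact_mod_cast hj
    have h1 : (2 : ℝ) ^ (k + 1) * Int.fract y < j := by
      have h2 := Int.fract_lt_one y
      have h3 : (0 : ℝ) < 2 ^ (k + 1) := by positivity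
      nlinarith
    have h4 : ⌊(2 : ℝ) ^ (k + 1) * Int.fract y⌋ < (j : ℤ) := by
      rw [Int.floor_lt]
      exact_mod_cast h1
    rw [if_neg h4.ne]
  unfold haar
  rw [h _ (by rw [pow_succ]; omega), h _ (by rw [pow_succ]; omega), sub_zero]

section boxes

variable {ι : Type} [Fintype ι] [DecidableEq ι]

/-- the expansion of the indicator of a dyadic box, abstractly -/
theorem expand {C : Type} [Fintype C] (S : Finset ℕ) (y : ℕ → ι → ℝ) (f : ι → ℝ → ℝ) (κ : ι → Option C → ℝ)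
    (φ : ι → Option C → ℝ → ℝ) (hφ : ∀ i z, φ i none z = 1) (hf : ∀ i z, f i z = ∑ c, κ i c * φ i c z) {E D : ℝ} (hE : 0 ≤ E)
    (hD : ∀ i, ∑ c, |κ i c| ≤ D)
    (h : ∀ q : ι → Option C, (∃ i, q i ≠ none) → |∑ n ∈ S, ∏ i, φ i (q i) (y n i)| ≤ E) :
    |∑ n ∈ S, ∏ i, f i (y n i) - S.card * ∏ i, κ i none| ≤ D ^ Fintype.card ι * E := by
  classical
  have e1 : ∀ n, ∏ i, f i (y n i) = ∑ q : ι → Option C, ∏ i, (κ i (q i) * φ i (q i) (y n i)) := by
    intro n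
    simp only [hf]
    rw [Finset.prod_univ_sum]
    simp
  have e2 : ∑ n ∈ S, ∏ i, f i (y n i) = ∑ q : ι → Option C, (∏ i, κ i (q i)) * ∑ n ∈ S, ∏ i, φ i (q i) (y n i) := by
    simp only [e1]
    rw [sum_comm]
    refine sum_congr rfl fun q _ => ?_
    rw [mul_sum]
    exact sum_congr rfl fun n _ => prod_mul_distrib
  have e3 : (∏ i, κ i (none : Option C)) * ∑ n ∈ S, ∏ i, φ i none (y n i) = S.card * ∏ i, κ i none := by
    simp only [hφ]
    simp [mul_comm]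
  rw [e2, ← e3, ← Finset.add_sum_erase _ _ (mem_univ (fun _ : ι => (none : Option C)))]
  rw [add_sub_cancel_left]
  refine (abs_sum_le_sum_abs _ _).trans ?_
  have e4 : ∀ q ∈ (univ : Finset (ι → Option C)).erase (fun _ => none),
      |(∏ i, κ i (q i)) * ∑ n ∈ S, ∏ i, φ i (q i) (y n i)| ≤ (∏ i, |κ i (q i)|) * E := by
    intro q hq
    rw [abs_mul, abs_prod]
    refine mul_le_mul_of_nonneg_left (h q ?_) (prod_nonneg fun i _ => abs_nonneg _)
    by_contra h1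
    push Not at h1
    exact (mem_erase.1 hq).1 (funext h1)
  refine (sum_le_sum e4).trans ?_
  rw [← sum_mul]
  refine mul_le_mul_of_nonneg_right ?_ hE
  refine (sum_le_sum_of_subset_of_nonneg (erase_subset _ _) fun q _ _ => prod_nonneg fun i _ => abs_nonneg _).trans ?_
  have e5 : ∑ q : ι → Option C, ∏ i, |κ i (q i)| = ∏ i, ∑ c, |κ i c| := by
    rw [Finset.prod_univ_sum]
    simp
  rw [e5]
  refine (prod_le_prod (fun i _ => sum_nonneg fun c _ => abs_nonneg _) fun i _ => hD i).trans ?_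
  rw [prod_const, card_univ]

/-- the box discrepancy for dyadic boxes -/
theorem dyadic_box {K : ℕ} (S : Finset ℕ) (y : ℕ → ι → ℝ) {E : ℝ} (hE : 0 ≤ E)
    (h : ∀ q : ι → Option (ℕ × ℕ), (∃ i, q i ≠ none) → (∀ i k j, q i = some (k, j) → k < K ∧ j < 2 ^ k) →
      |∑ n ∈ S, ∏ i, hf (q i) (y n i)| ≤ E) {a b : ι → ℕ} (hab : ∀ i, a i ≤ b i) (hb : ∀ i, b i ≤ 2 ^ K) :
    |∑ n ∈ S, ∏ i, ((if Int.fract (y n i) < b i / 2 ^ K then (1 : ℝ) else 0) - if Int.fract (y n i) < a i / 2 ^ K then 1 else 0) -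
      S.card * ∏ i, (((b i : ℝ) - a i) / 2 ^ K)| ≤ (K + 1) ^ Fintype.card ι * E := by
  set κ : ι → Option (Fin K × Bool) → ℝ := fun i c => c.elim (((b i : ℝ) - a i) / 2 ^ K)
    fun p => if p.2 then co (b i / 2 ^ K) p.1 else -co (a i / 2 ^ K) p.1 with hκ
  set Q : ι → Option (Fin K × Bool) → Option (ℕ × ℕ) := fun i c => c.elim none
    fun p => if p.2 then some (p.1.1, ⌊(2 : ℝ) ^ p.1.1 * (b i / 2 ^ K)⌋₊) else some (p.1.1, ⌊(2 : ℝ) ^ p.1.1 * (a i / 2 ^ K)⌋₊) with hQ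
  have hp : (0 : ℝ) < 2 ^ K := by positivity
  refine expand (C := Fin K × Bool) S y
    (fun i z => (if Int.fract z < b i / 2 ^ K then (1 : ℝ) else 0) - if Int.fract z < a i / 2 ^ K then 1 else 0) κ
    (fun i c => hf (Q i c)) (fun i z => rfl) ?_ hE ?_ ?_
  · intro i z
    rw [indic (hb i), indic ((hab i).trans (hb i)), Fintype.sum_option, Fintype.sum_prod_type]
    simp only [hκ, hQ, hf, Option.elim, Fintype.sum_bool, if_true, Bool.false_eq_true, if_false]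
    rw [sum_add_distrib, Finset.sum_range, Finset.sum_range]
    simp only [neg_mul, sum_neg_distrib]
    ring
  · intro i
    rw [Fintype.sum_option, Fintype.sum_prod_type]
    simp only [hκ, Option.elim, Fintype.sum_bool, if_true, Bool.false_eq_true, if_false, abs_neg]
    have h1 : |((b i : ℝ) - a i) / 2 ^ K| ≤ 1 := by
      have h2 : (a i : ℝ) ≤ b i := by exact_mod_cast hab i
      have h3 : (b i : ℝ) ≤ 2 ^ K := by exact_mod_cast hb i
      have h4 : (0 : ℝ) ≤ a i := Nat.cast_nonneg _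
      rw [abs_of_nonneg (div_nonneg (by linarith) hp.le), div_le_one hp]
      linarith
    have h2 : ∑ x : Fin K, (|co (b i / 2 ^ K) x| + |co (a i / 2 ^ K) x|) ≤ ∑ _x : Fin K, (1 : ℝ) := by
      refine sum_le_sum fun k _ => ?_
      rw [abs_of_nonneg (co_nonneg _ _), abs_of_nonneg (co_nonneg _ _)]
      linarith [co_le (b i / 2 ^ K) k, co_le (a i / 2 ^ K) k]
    rw [sum_const, card_univ, Fintype.card_fin, nsmul_eq_mul, mul_one] at h2
    linarith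
  · intro q hq
    by_cases hbig : ∃ i k j, Q i (q i) = some (k, j) ∧ 2 ^ k ≤ j
    · obtain ⟨i, k, j, h1, h2⟩ := hbig
      have h3 : ∀ n, ∏ i, hf (Q i (q i)) (y n i) = 0 := by
        intro n
        refine prod_eq_zero (mem_univ i) ?_
        rw [h1]
        exact haar_big h2 _
      simp only [h3, sum_const_zero, abs_zero]
      exact hE
    · push Not at hbig
      refine h (fun i => Q i (q i)) ?_ fun i k j hi => ⟨?_, hbig i k j hi⟩
      · obtain ⟨i, hi⟩ := hq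
        refine ⟨i, ?_⟩
        rcases hqi : q i with _ | ⟨k, β⟩
        · exact absurd hqi hi
        · cases β <;> simp [hQ]
      · rcases hqi : q i with _ | ⟨k', β⟩
        · rw [hqi] at hi
          simp [hQ] at hi
        · rw [hqi] at hi
          cases β <;> simp [hQ] at hi <;> omega

omit [Fintype ι] in
theorem prod_sub_le {u v : ι → ℝ} (hu : ∀ i, 0 ≤ u i) (huv : ∀ i, u i ≤ v i) (hv : ∀ i, v i ≤ 1) (s : Finset ι) :
    ∏ i ∈ s, v i - ∏ i ∈ s, u i ≤ ∑ i ∈ s, (v i - u i) := by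
  induction s using Finset.induction_on with
  | empty => simp
  | insert a s ha ih =>
    rw [prod_insert ha, prod_insert ha, sum_insert ha]
    have h1 : ∏ i ∈ s, u i ≤ ∏ i ∈ s, v i := prod_le_prod (fun i _ => hu i) fun i _ => huv i
    have h2 : ∏ i ∈ s, v i ≤ 1 := prod_le_one (fun i _ => (hu i).trans (huv i)) fun i _ => hv i
    have h3 : 0 ≤ ∏ i ∈ s, u i := prod_nonneg fun i _ => hu i
    have h4 := hu a
    have h5 := huv a
    have h6 := hv a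
    nlinarith

/-- the box discrepancy from the sums of the tensor Haar functions -/
theorem box_disc {K : ℕ} (S : Finset ℕ) (y : ℕ → ι → ℝ) {E : ℝ} (hE : 0 ≤ E)
    (h : ∀ q : ι → Option (ℕ × ℕ), (∃ i, q i ≠ none) → (∀ i k j, q i = some (k, j) → k < K ∧ j < 2 ^ k) →
      |∑ n ∈ S, ∏ i, hf (q i) (y n i)| ≤ E) {α β : ι → ℝ} (h0 : ∀ i, 0 ≤ α i) (h1 : ∀ i, α i ≤ β i) (h2 : ∀ i, β i ≤ 1) :
    |((S.filter fun n : ℕ => ∀ i, α i ≤ Int.fract (y n i) ∧ Int.fract (y n i) < β i).card : ℝ) - S.card * ∏ i, (β i - α i)| ≤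
      (K + 1) ^ Fintype.card ι * E + 2 * Fintype.card ι * S.card * (1 / 2) ^ K := by
  have hp : (0 : ℝ) < 2 ^ K := by positivity
  have hpK : (1 / 2 : ℝ) ^ K = 1 / 2 ^ K := by rw [one_div_pow]
  have hβ0 : ∀ i, 0 ≤ β i := fun i => (h0 i).trans (h1 i)
  have hc : ((S.filter fun n : ℕ => ∀ i, α i ≤ Int.fract (y n i) ∧ Int.fract (y n i) < β i).card : ℝ) =
      ∑ n ∈ S, ∏ i, (if α i ≤ Int.fract (y n i) ∧ Int.fract (y n i) < β i then (1 : ℝ) else 0) := by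
    rw [card_filter]
    push_cast
    refine sum_congr rfl fun n _ => ?_
    by_cases h3 : ∀ i, α i ≤ Int.fract (y n i) ∧ Int.fract (y n i) < β i
    · rw [if_pos h3, prod_eq_one fun i _ => if_pos (h3 i)]
    · rw [if_neg h3]
      push Not at h3
      obtain ⟨i, hi⟩ := h3
      rw [prod_eq_zero (mem_univ i)]
      rw [if_neg]
      rintro ⟨h4, h5⟩
      exact absurd h5 (not_lt.2 (hi h4))
  rw [hc]
  -- floors and ceilings
  have fa : ∀ i, ((⌊2 ^ K * α i⌋₊ : ℕ) : ℝ) ≤ 2 ^ K * α i := fun i => Nat.floor_le (mul_nonneg hp.le (h0 i))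
  have fa' : ∀ i, 2 ^ K * α i < (⌊2 ^ K * α i⌋₊ : ℕ) + 1 := fun i => Nat.lt_floor_add_one _
  have fb : ∀ i, ((⌊2 ^ K * β i⌋₊ : ℕ) : ℝ) ≤ 2 ^ K * β i := fun i => Nat.floor_le (mul_nonneg hp.le (hβ0 i))
  have fb' : ∀ i, 2 ^ K * β i < (⌊2 ^ K * β i⌋₊ : ℕ) + 1 := fun i => Nat.lt_floor_add_one _
  have ca : ∀ i, 2 ^ K * α i ≤ (⌈2 ^ K * α i⌉₊ : ℕ) := fun i => Nat.le_ceil _
  have ca' : ∀ i, ((⌈2 ^ K * α i⌉₊ : ℕ) : ℝ) < 2 ^ K * α i + 1 := fun i => Nat.ceil_lt_add_one (mul_nonneg hp.le (h0 i))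
  have cb : ∀ i, 2 ^ K * β i ≤ (⌈2 ^ K * β i⌉₊ : ℕ) := fun i => Nat.le_ceil _
  have cb' : ∀ i, ((⌈2 ^ K * β i⌉₊ : ℕ) : ℝ) < 2 ^ K * β i + 1 := fun i => Nat.ceil_lt_add_one (mul_nonneg hp.le (hβ0 i))
  have hab : ∀ i, 2 ^ K * α i ≤ 2 ^ K * β i := fun i => mul_le_mul_of_nonneg_left (h1 i) hp.le
  have hb1 : ∀ i, 2 ^ K * β i ≤ 2 ^ K := fun i => mul_le_of_le_one_right hp.le (h2 i)
  -- outer boxes
  have ho1 : ∀ i, ⌊2 ^ K * α i⌋₊ ≤ ⌈2 ^ K * β i⌉₊ := fun i => by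
    have h3 : ((⌊2 ^ K * α i⌋₊ : ℕ) : ℝ) ≤ (⌈2 ^ K * β i⌉₊ : ℕ) := (fa i).trans ((hab i).trans (cb i))
    exact_mod_cast h3
  have ho2 : ∀ i, ⌈2 ^ K * β i⌉₊ ≤ 2 ^ K := fun i => by
    rw [Nat.ceil_le]
    push_cast
    exact hb1 i
  have hi1 : ∀ i, min ⌈2 ^ K * α i⌉₊ ⌊2 ^ K * β i⌋₊ ≤ ⌊2 ^ K * β i⌋₊ := fun i => min_le_right _ _
  have hi2 : ∀ i, ⌊2 ^ K * β i⌋₊ ≤ 2 ^ K := fun i => (Nat.floor_le_ceil _).trans (ho2 i)
  have hout := dyadic_box S y hE h ho1 ho2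
  have hinn := dyadic_box S y hE h hi1 hi2
  -- comparison of the sums
  have cmp_out : ∑ n ∈ S, ∏ i, (if α i ≤ Int.fract (y n i) ∧ Int.fract (y n i) < β i then (1 : ℝ) else 0) ≤
      ∑ n ∈ S, ∏ i, ((if Int.fract (y n i) < (⌈2 ^ K * β i⌉₊ : ℕ) / 2 ^ K then (1 : ℝ) else 0) -
        if Int.fract (y n i) < (⌊2 ^ K * α i⌋₊ : ℕ) / 2 ^ K then 1 else 0) := by
    refine sum_le_sum fun n _ => prod_le_prod (fun i _ => by split_ifs <;> norm_num) fun i _ => ?_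
    have e1 : β i ≤ (⌈2 ^ K * β i⌉₊ : ℕ) / 2 ^ K := by rw [le_div_iff₀ hp, mul_comm]; exact cb i
    have e2 : ((⌊2 ^ K * α i⌋₊ : ℕ) : ℝ) / 2 ^ K ≤ α i := (div_le_iff₀' hp).2 (fa i)
    have e3 := h1 i
    by_cases c1 : α i ≤ Int.fract (y n i) ∧ Int.fract (y n i) < β i
    · rw [if_pos c1, if_pos (c1.2.trans_le e1), if_neg (not_lt.2 (e2.trans c1.1))]
      norm_num
    · rw [if_neg c1]
      by_cases c2 : Int.fract (y n i) < ((⌊2 ^ K * α i⌋₊ : ℕ) : ℝ) / 2 ^ K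
      · rw [if_pos c2, if_pos (c2.trans_le (e2.trans (e3.trans e1)))]
        norm_num
      · rw [if_neg c2]
        split_ifs <;> norm_num
  have cmp_inn : ∑ n ∈ S, ∏ i, ((if Int.fract (y n i) < (⌊2 ^ K * β i⌋₊ : ℕ) / 2 ^ K then (1 : ℝ) else 0) -
        if Int.fract (y n i) < (min ⌈2 ^ K * α i⌉₊ ⌊2 ^ K * β i⌋₊ : ℕ) / 2 ^ K then 1 else 0) ≤
      ∑ n ∈ S, ∏ i, (if α i ≤ Int.fract (y n i) ∧ Int.fract (y n i) < β i then (1 : ℝ) else 0) := by
    refine sum_le_sum fun n _ => prod_le_prod (fun i _ => ?_) fun i _ => ?_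
    · have e1 : ((min ⌈2 ^ K * α i⌉₊ ⌊2 ^ K * β i⌋₊ : ℕ) : ℝ) / 2 ^ K ≤ (⌊2 ^ K * β i⌋₊ : ℕ) / 2 ^ K := by
        have : ((min ⌈2 ^ K * α i⌉₊ ⌊2 ^ K * β i⌋₊ : ℕ) : ℝ) ≤ (⌊2 ^ K * β i⌋₊ : ℕ) := by exact_mod_cast hi1 i
        exact (div_le_div_iff_of_pos_right hp).2 this
      by_cases c2 : Int.fract (y n i) < ((min ⌈2 ^ K * α i⌉₊ ⌊2 ^ K * β i⌋₊ : ℕ) : ℝ) / 2 ^ K
      · rw [if_pos c2, if_pos (c2.trans_le e1)]
        norm_num
      · rw [if_neg c2]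
        split_ifs <;> norm_num
    · have e1 : ((⌊2 ^ K * β i⌋₊ : ℕ) : ℝ) / 2 ^ K ≤ β i := (div_le_iff₀' hp).2 (fb i)
      by_cases c1 : α i ≤ Int.fract (y n i) ∧ Int.fract (y n i) < β i
      · rw [if_pos c1]
        split_ifs <;> norm_num
      · rw [if_neg c1]
        by_cases c2 : Int.fract (y n i) < ((⌊2 ^ K * β i⌋₊ : ℕ) : ℝ) / 2 ^ K
        · have c3 : Int.fract (y n i) < β i := c2.trans_le e1
          have c4 : Int.fract (y n i) < α i := by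
            by_contra c5
            exact c1 ⟨not_lt.1 c5, c3⟩
          have c6 : Int.fract (y n i) < ((min ⌈2 ^ K * α i⌉₊ ⌊2 ^ K * β i⌋₊ : ℕ) : ℝ) / 2 ^ K := by
            rw [Nat.cast_min, lt_div_iff₀ hp, lt_min_iff, mul_comm]
            refine ⟨lt_of_lt_of_le (mul_lt_mul_of_pos_left c4 hp) (ca i), ?_⟩
            rw [lt_div_iff₀ hp, mul_comm] at c2
            exact c2
          rw [if_pos c2, if_pos c6]
          norm_num
        · rw [if_neg c2]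
          split_ifs <;> norm_num
  -- comparison of the volumes
  have vol_out : ∏ i, (((⌈2 ^ K * β i⌉₊ : ℕ) : ℝ) - (⌊2 ^ K * α i⌋₊ : ℕ)) / 2 ^ K - ∏ i, (β i - α i) ≤
      2 * Fintype.card ι * (1 / 2) ^ K := by
    refine (prod_sub_le (fun i => sub_nonneg.2 (h1 i)) (fun i => ?_) (fun i => ?_) univ).trans ?_
    · rw [le_div_iff₀ hp]
      linarith [cb i, fa i]
    · rw [div_le_one hp]
      have h3 : ((⌈2 ^ K * β i⌉₊ : ℕ) : ℝ) ≤ 2 ^ K := by exact_mod_cast ho2 i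
      have h4 : (0 : ℝ) ≤ (⌊2 ^ K * α i⌋₊ : ℕ) := Nat.cast_nonneg _
      linarith
    · have h3 : ∀ i ∈ (univ : Finset ι), (((⌈2 ^ K * β i⌉₊ : ℕ) : ℝ) - (⌊2 ^ K * α i⌋₊ : ℕ)) / 2 ^ K - (β i - α i) ≤ 2 / 2 ^ K := by
        intro i _
        rw [sub_le_iff_le_add, div_le_iff₀ hp, add_mul, div_mul_cancel₀ _ hp.ne']
        linarith [cb' i, fa' i]
      refine (sum_le_sum h3).trans ?_
      rw [sum_const, card_univ, nsmul_eq_mul, hpK]
      apply le_of_eq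
      ring
  have vol_inn : ∏ i, (β i - α i) - ∏ i, (((⌊2 ^ K * β i⌋₊ : ℕ) : ℝ) - (min ⌈2 ^ K * α i⌉₊ ⌊2 ^ K * β i⌋₊ : ℕ)) / 2 ^ K ≤
      2 * Fintype.card ι * (1 / 2) ^ K := by
    have hm : ∀ i, ((min ⌈2 ^ K * α i⌉₊ ⌊2 ^ K * β i⌋₊ : ℕ) : ℝ) = min ((⌈2 ^ K * α i⌉₊ : ℕ) : ℝ) (⌊2 ^ K * β i⌋₊ : ℕ) := fun i => Nat.cast_min _ _
    refine (prod_sub_le (fun i => ?_) (fun i => ?_) (fun i => ?_) univ).trans ?_
    · refine div_nonneg ?_ hp.le
      rw [hm]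
      linarith [min_le_right ((⌈2 ^ K * α i⌉₊ : ℕ) : ℝ) (⌊2 ^ K * β i⌋₊ : ℕ)]
    · rw [div_le_iff₀ hp, hm]
      rcases min_choice ((⌈2 ^ K * α i⌉₊ : ℕ) : ℝ) (⌊2 ^ K * β i⌋₊ : ℕ) with h3 | h3
      · rw [h3]
        linarith [ca i, fb i]
      · rw [h3]
        linarith [hab i]
    · linarith [h0 i, h2 i]
    · have h3 : ∀ i ∈ (univ : Finset ι), (β i - α i) - (((⌊2 ^ K * β i⌋₊ : ℕ) : ℝ) - (min ⌈2 ^ K * α i⌉₊ ⌊2 ^ K * β i⌋₊ : ℕ)) / 2 ^ K ≤ 2 / 2 ^ K := by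
        intro i _
        rw [sub_le_iff_le_add, ← add_div, le_div_iff₀ hp, hm]
        linarith [min_le_left ((⌈2 ^ K * α i⌉₊ : ℕ) : ℝ) (⌊2 ^ K * β i⌋₊ : ℕ), ca' i, fb' i]
      refine (sum_le_sum h3).trans ?_
      rw [sum_const, card_univ, nsmul_eq_mul, hpK]
      apply le_of_eq
      ring
  have hS : (0 : ℝ) ≤ S.card := Nat.cast_nonneg _
  have v1 := mul_le_mul_of_nonneg_left vol_out hS
  have v2 := mul_le_mul_of_nonneg_left vol_inn hS
  rw [mul_sub] at v1 v2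
  rw [abs_le] at hout hinn ⊢
  constructor
  · linarith [hinn.1]
  · linarith [hout.2]

end boxes

end Pool.Agent.Helper59.LD6
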