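import Pool.Agent.Helper41.LD6.Defs
import Pool.Agent.Helper59.LD6.Box

/-!
# LD6, blocks H2 and H3: boxes from the sums over products of Haar functions
-/

set_option autoImplicit false

namespace Pool.Agent.Helper59.LD6

open Finset
open Pool.Agent.Helper41.LD (haar ind)
open Pool.Agent.Helper41.LD6 (hr)

/-- the number of a Haar function in the list `hr` -/
def num (q : Option (ℕ × ℕ)) : ℕ := q.elim 0 fun p => 2 ^ p.1 + p.2

theorem hr_num {q : Option (ℕ × ℕ)} (hq : ∀ k j, q = some (k, j) → j < 2 ^ k) : hr (num q) = hf q := by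
  rcases q with _ | ⟨k, j⟩
  · funext y
    simp [num, hr, hf]
  · have hj := hq k j rfl
    have h1 : Nat.log 2 (2 ^ k + j) = k := by
      apply Nat.log_eq_of_pow_le_of_lt_pow
      · omega
      · rw [pow_succ]
        omega
    have h2 : 2 ^ k + j ≠ 0 := by
      have := Nat.one_le_two_pow (n := k)
      omega
    have e : hr (2 ^ k + j) = haar k j := by
      unfold hr
      rw [if_neg h2, h1, Nat.add_sub_cancel_left]
    funext y
    show hr (2 ^ k + j) y = haar k j y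
    rw [e]

theorem disc6 {s K : ℕ} {n₁ n₂ : ℕ} (hn : n₁ ≤ n₂) (u : ℕ → ℝ) {Em : ℝ} (hE : 0 ≤ Em)
    (h : ∀ q : Fin s → ℕ, (∀ i, q i < 2 ^ K) → (∃ i, q i ≠ 0) → |∑ n ∈ Finset.Ico n₁ n₂, ∏ i : Fin s, hr (q i) (u (n + i))| ≤ Em)
    (α γ : Fin s → ℝ) (hαγ : ∀ i, 0 ≤ α i ∧ α i ≤ γ i ∧ γ i ≤ 1) :
    |(((Finset.Ico n₁ n₂).filter fun n : ℕ => ∀ i : Fin s, α i ≤ Int.fract (u (n + i)) ∧ Int.fract (u (n + i)) < γ i).card : ℝ) -
      ((n₂ : ℝ) - n₁) * ∏ i, (γ i - α i)| ≤ ((K : ℝ) + 1) ^ s * Em + 2 * s * ((n₂ : ℝ) - n₁) * (1 / 2) ^ K := by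
  have h1 := box_disc (K := K) (Finset.Ico n₁ n₂) (fun n (i : Fin s) => u (n + i)) hE (fun q hq0 hq => by
    have h2 := h (fun i => num (q i)) (fun i => ?_) ?_
    · refine le_of_eq_of_le ?_ h2
      congr 1
      refine sum_congr rfl fun n _ => prod_congr rfl fun i _ => ?_
      rw [hr_num fun k j hkj => (hq i k j hkj).2]
    · rcases hqi : q i with _ | ⟨k, j⟩
      · simp [num]
      · obtain ⟨h3, h4⟩ := hq i k j hqi
        have h5 : 2 ^ (k + 1) ≤ 2 ^ K := Nat.pow_le_pow_right (by norm_num) h3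
        rw [pow_succ] at h5
        simp only [num, Option.elim]
        omega
    · obtain ⟨i, hi⟩ := hq0
      refine ⟨i, ?_⟩
      rcases hqi : q i with _ | ⟨k, j⟩
      · exact absurd hqi hi
      · have := Nat.one_le_two_pow (n := k)
        simp only [num, Option.elim]
        omega) (α := α) (β := γ) (fun i => (hαγ i).1) (fun i => (hαγ i).2.1) (fun i => (hαγ i).2.2)
  have h2 : ((Finset.Ico n₁ n₂).card : ℝ) = (n₂ : ℝ) - n₁ := by
    rw [Nat.card_Ico, Nat.cast_sub hn]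
  rw [h2, Fintype.card_fin] at h1
  convert h1

/-- the indicator of `[α, γ)` modulo one -/
noncomputable def bx (α γ y : ℝ) : ℝ := if α ≤ Int.fract y ∧ Int.fract y < γ then 1 else 0

theorem hr_exp {K : ℕ} {A B : ℕ} (hAB : A ≤ B) (hB : B ≤ 2 ^ K) : ∃ c : ℕ → ℝ, c 0 = ((B : ℝ) - A) / 2 ^ K ∧
    ∑ n ∈ Finset.range (2 ^ K), |c n| ≤ K + 1 ∧
    ∀ y : ℝ, bx (A / 2 ^ K) (B / 2 ^ K) y = ∑ n ∈ Finset.range (2 ^ K), c n * hr n y := by
  have hp : (0 : ℝ) < 2 ^ K := by positivity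
  have hA := hAB.trans hB
  -- the term of one end point: a sum over the levels of multiples of single functions
  set κ : ℕ → ℕ → ℕ → ℝ := fun C k n => if ⌊(2 : ℝ) ^ k * (C / 2 ^ K)⌋₊ < 2 ^ k ∧ n = 2 ^ k + ⌊(2 : ℝ) ^ k * (C / 2 ^ K)⌋₊ then co (C / 2 ^ K) k else 0 with hκ
  have key : ∀ C : ℕ, C ≤ 2 ^ K → ∀ k < K, ∀ y : ℝ, co (C / 2 ^ K) k * haar k ⌊(2 : ℝ) ^ k * (C / 2 ^ K)⌋₊ y =
      ∑ n ∈ range (2 ^ K), κ C k n * hr n y := by
    intro C hC k hk y
    by_cases hb : ⌊(2 : ℝ) ^ k * (C / 2 ^ K)⌋₊ < 2 ^ k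
    · have h5 : 2 ^ (k + 1) ≤ 2 ^ K := Nat.pow_le_pow_right (by norm_num) hk
      rw [pow_succ] at h5
      rw [sum_eq_single (2 ^ k + ⌊(2 : ℝ) ^ k * (C / 2 ^ K)⌋₊)]
      · rw [show κ C k (2 ^ k + ⌊(2 : ℝ) ^ k * (C / 2 ^ K)⌋₊) = co (C / 2 ^ K) k from if_pos ⟨hb, rfl⟩]
        have h6 := hr_num (q := some (k, ⌊(2 : ℝ) ^ k * (C / 2 ^ K)⌋₊)) (fun k' j' h => by simp at h; obtain ⟨h7, h8⟩ := h; subst h7 h8; exact hb)
        have h7 := congrFun h6 y
        simp only [num, hf, Option.elim] at h7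
        rw [h7]
      · intro n _ hn
        simp only [hκ]
        rw [if_neg (fun h => hn h.2), zero_mul]
      · intro hn
        exfalso
        apply hn
        rw [mem_range]
        omega
    · rw [haar_big (not_lt.1 hb), mul_zero]
      refine (sum_eq_zero fun n _ => ?_).symm
      simp only [hκ]
      rw [if_neg (fun h => hb h.1), zero_mul]
  have habs : ∀ C : ℕ, C ≤ 2 ^ K → ∀ k < K, ∑ n ∈ range (2 ^ K), |κ C k n| ≤ 1 / 2 := by
    intro C hC k hk
    refine (sum_le_sum (g := fun n => if n = 2 ^ k + ⌊(2 : ℝ) ^ k * (C / 2 ^ K)⌋₊ then (1 / 2 : ℝ) else 0) fun n _ => ?_).trans ?_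
    · simp only [hκ]
      by_cases h1 : ⌊(2 : ℝ) ^ k * (C / 2 ^ K)⌋₊ < 2 ^ k ∧ n = 2 ^ k + ⌊(2 : ℝ) ^ k * (C / 2 ^ K)⌋₊
      · rw [if_pos h1, if_pos h1.2, abs_of_nonneg (co_nonneg _ _)]
        exact co_le _ _
      · rw [if_neg h1, abs_zero]
        split_ifs <;> norm_num
    · rw [sum_ite_eq']
      split_ifs <;> norm_num
  have k0 : ∀ C k, κ C k 0 = 0 := by
    intro C k
    simp only [hκ]
    rw [if_neg]
    rintro ⟨-, h⟩
    have := Nat.one_le_two_pow (n := k)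
    omega
  refine ⟨fun n => (if n = 0 then ((B : ℝ) - A) / 2 ^ K else 0) + ∑ k ∈ range K, (κ B k n - κ A k n), ?_, ?_, ?_⟩
  · simp [k0]
  · refine (sum_le_sum (g := fun n => (if n = 0 then (1 : ℝ) else 0) + ∑ k ∈ range K, (|κ B k n| + |κ A k n|)) fun n _ => ?_).trans ?_
    · refine (abs_add_le _ _).trans (add_le_add ?_ ?_)
      · have h2 : (A : ℝ) ≤ B := by exact_mod_cast hAB
        have h3 : (B : ℝ) ≤ 2 ^ K := by exact_mod_cast hB
        have h4 : (0 : ℝ) ≤ A := Nat.cast_nonneg _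
        split_ifs
        · rw [abs_of_nonneg (div_nonneg (by linarith) hp.le), div_le_one hp]
          linarith
        · rw [abs_zero]
      · refine (abs_sum_le_sum_abs _ _).trans (sum_le_sum fun k _ => ?_)
        exact abs_sub _ _
    · rw [sum_add_distrib, sum_ite_eq', if_pos (mem_range.2 (by positivity)), sum_comm]
      have h1 : ∑ k ∈ range K, ∑ n ∈ range (2 ^ K), (|κ B k n| + |κ A k n|) ≤ ∑ _k ∈ range K, (1 : ℝ) := by
        refine sum_le_sum fun k hk => ?_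
        rw [sum_add_distrib]
        linarith [habs B hB k (mem_range.1 hk), habs A hA k (mem_range.1 hk)]
      rw [sum_const, card_range, nsmul_eq_mul, mul_one] at h1
      linarith
  · intro y
    have e1 : bx (A / 2 ^ K) (B / 2 ^ K) y = (if Int.fract y < B / 2 ^ K then (1 : ℝ) else 0) - if Int.fract y < A / 2 ^ K then 1 else 0 := by
      unfold bx
      have h2 : (A : ℝ) / 2 ^ K ≤ B / 2 ^ K := by
        apply div_le_div_of_nonneg_right _ hp.le
        exact_mod_cast hAB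
      by_cases c1 : Int.fract y < A / 2 ^ K
      · rw [if_neg (fun h => absurd c1 (not_lt.2 h.1)), if_pos (c1.trans_le h2), if_pos c1, sub_self]
      · by_cases c2 : Int.fract y < B / 2 ^ K
        · rw [if_pos ⟨not_lt.1 c1, c2⟩, if_pos c2, if_neg c1, sub_zero]
        · rw [if_neg (fun h => c2 h.2), if_neg c2, if_neg c1, sub_zero]
    rw [e1, indic hB, indic hA]
    have e2 : ∀ C : ℕ, C ≤ 2 ^ K → ∑ k ∈ range K, co (C / 2 ^ K) k * haar k ⌊(2 : ℝ) ^ k * (C / 2 ^ K)⌋₊ y =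
        ∑ n ∈ range (2 ^ K), (∑ k ∈ range K, κ C k n) * hr n y := by
      intro C hC
      rw [sum_congr rfl fun k hk => key C hC k (mem_range.1 hk) y, sum_comm]
      exact sum_congr rfl fun n _ => (sum_mul _ _ _).symm
    rw [e2 B hB, e2 A hA]
    have e3 : ∑ n ∈ range (2 ^ K), (if n = 0 then ((B : ℝ) - A) / 2 ^ K else 0) * hr n y = ((B : ℝ) - A) / 2 ^ K := by
      rw [sum_eq_single 0]
      · simp [hr]
      · intro n _ hn
        rw [if_neg hn, zero_mul]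
      · intro hn
        exact absurd (mem_range.2 (by positivity)) hn
    have e4 : ∑ n ∈ range (2 ^ K), ((if n = 0 then ((B : ℝ) - A) / 2 ^ K else 0) + ∑ k ∈ range K, (κ B k n - κ A k n)) * hr n y =
        ∑ n ∈ range (2 ^ K), (if n = 0 then ((B : ℝ) - A) / 2 ^ K else 0) * hr n y + ∑ n ∈ range (2 ^ K), (∑ k ∈ range K, κ B k n) * hr n y - ∑ n ∈ range (2 ^ K), (∑ k ∈ range K, κ A k n) * hr n y := by
      rw [← sum_add_distrib, ← sum_sub_distrib]
      refine sum_congr rfl fun n _ => ?_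
      rw [sum_sub_distrib]
      ring
    rw [e4, e3]
    ring

end Pool.Agent.Helper59.LD6
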