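import Pool.Agent.Helper76.LD6.Num
import Pool.Agent.Helper11.LD6.NuT
import Pool.Agent.Helper68.LD6.TTB1
import Pool.Agent.Helper94.LD6.TTA
import Pool.Agent.Helper59.LD6.H3
import Pool.Agent.Helper94.LD6.H4

/-!
# LD6, block CLS: from the sums to the boxes
-/

set_option autoImplicit false

namespace Pool.Agent.Helper59.LD6

open Finset
open Pool.Agent.Helper41.LD6
open Pool.Agent.Helper41.LD5 (nuP)
open Pool.Agent.Helper76.LD6 (num_K num_Z num_le num_pow)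
open Pool.Agent.Helper11.LD6 (nu_T)
open Pool.Agent.Helper68.LD6 (Tt_mono Tt_ge T_start)
open Pool.Agent.Helper94.LD6 (Vf_fp)

/-- two counts over intervals with close end points -/
theorem count_shift (Q : ℕ → Prop) [DecidablePred Q] {v : ℝ} (hv0 : 0 ≤ v) (hv1 : v ≤ 1) {a a' D : ℕ} (h1 : a ≤ a') (h2 : a' ≤ a + D) :
    |(((range a').filter Q).card : ℝ) - a' * v - ((((range a).filter Q).card : ℝ) - a * v)| ≤ D := by
  obtain ⟨k, rfl⟩ := Nat.exists_eq_add_of_le h1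
  have hk : (k : ℝ) ≤ D := by
    have : k ≤ D := by omega
    exact_mod_cast this
  have e : ((range (a + k)).filter Q).card = ((range a).filter Q).card + ((Ico a (a + k)).filter Q).card := by
    rw [← card_union_of_disjoint]
    · congr 1
      ext n
      simp only [mem_filter, mem_union, mem_range, mem_Ico]
      constructor
      · rintro ⟨h3, h4⟩
        rcases lt_or_ge n a with h5 | h5
        · exact Or.inl ⟨h5, h4⟩
        · exact Or.inr ⟨⟨h5, h3⟩, h4⟩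
      · rintro (⟨h3, h4⟩ | ⟨⟨h3, h4⟩, h5⟩)
        · exact ⟨by omega, h4⟩
        · exact ⟨h4, h5⟩
    · rw [Finset.disjoint_left]
      intro n h3 h4
      simp only [mem_filter, mem_range, mem_Ico] at h3 h4
      omega
  have h3 : ((Ico a (a + k)).filter Q).card ≤ k := (card_filter_le _ _).trans (by simp)
  have h4 : (((Ico a (a + k)).filter Q).card : ℝ) ≤ k := by exact_mod_cast h3
  have h5 : (0 : ℝ) ≤ ((Ico a (a + k)).filter Q).card := Nat.cast_nonneg _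
  rw [e]
  push_cast
  have h6 : (0 : ℝ) ≤ k := Nat.cast_nonneg _
  rw [abs_le]
  constructor <;> nlinarith

theorem count_Ico (Q : ℕ → Prop) [DecidablePred Q] {a b : ℕ} (h : a ≤ b) :
    (((Ico a b).filter Q).card : ℝ) = ((range b).filter Q).card - ((range a).filter Q).card := by
  have e : ((range b).filter Q).card = ((range a).filter Q).card + ((Ico a b).filter Q).card := by
    rw [← card_union_of_disjoint]
    · congr 1
      ext n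
      simp only [mem_filter, mem_union, mem_range, mem_Ico]
      constructor
      · rintro ⟨h3, h4⟩
        rcases lt_or_ge n a with h5 | h5
        · exact Or.inl ⟨h5, h4⟩
        · exact Or.inr ⟨⟨h5, h3⟩, h4⟩
      · rintro (⟨h3, h4⟩ | ⟨⟨h3, h4⟩, h5⟩)
        · exact ⟨by omega, h4⟩
        · exact ⟨h4, h5⟩
    · rw [Finset.disjoint_left]
      intro n h3 h4
      simp only [mem_filter, mem_range, mem_Ico] at h3 h4
      omega
  rw [e]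
  push_cast
  ring

theorem nuP_le {A₀ x ℓ ℓ' : ℝ} (hA : 0 < A₀) (hx : 1 < x) (hst : ℓ ≤ ℓ') (hne : {n : ℕ | 1 ≤ Pool.Agent.Helper41.LD5.fp A₀ 1 (1 * n) x * ℓ}.Nonempty) :
    nuP A₀ 1 1 x ℓ' ≤ nuP A₀ 1 1 x ℓ := by
  unfold nuP
  refine Nat.sInf_le ?_
  have h1 := Nat.sInf_mem hne
  refine (show (1 : ℝ) ≤ _ from h1).trans ?_
  refine mul_le_mul_of_nonneg_left hst ?_
  unfold Pool.Agent.Helper41.LD5.fp
  positivity

section

variable {F : Pm} {K : ℕ} {a₀ ℓst a ℓ x : ℝ}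

theorem cls_num {X d Z C₁ K s T B₁ : ℕ} {Em S0 : ℝ} (hK : 1 ≤ K) (hZ : Z ≤ K) (hXd : (X + 1) * (d + 4) ≤ Z) (hXC : X * C₁ ≤ Z) (hs : s ≤ d + 1)
    (hEm : Em = 131072 * X * (d + 4) * (K : ℝ) ^ 4 * (4 * (K : ℝ)) ^ s + 2 * d) (hT : (T : ℝ) ≤ 2 ^ K * (X * (K : ℝ) ^ 3))
    (hB : (B₁ : ℝ) = X * (C₁ * ((d + 4) * K) + 1)) (hS0 : S0 ≤ ((K : ℝ) + 1) ^ s * Em + 2 * s * T * (1 / 2) ^ K + 2 * B₁) :
    S0 ≤ (2 ^ 30 * 8 ^ (d + 1) * Z : ℕ) * (K : ℝ) ^ (2 * s + 4) := by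
  have hK1 : (1 : ℝ) ≤ K := by exact_mod_cast hK
  have hXd' : ((X : ℝ) + 1) * (d + 4) ≤ Z := by exact_mod_cast hXd
  have hXC' : (X : ℝ) * C₁ ≤ Z := by exact_mod_cast hXC
  have hZ' : (Z : ℝ) ≤ K := by exact_mod_cast hZ
  have hs' : (s : ℝ) ≤ d + 1 := by exact_mod_cast hs
  have hX0 : (0 : ℝ) ≤ X := Nat.cast_nonneg _
  have hd0 : (0 : ℝ) ≤ d := Nat.cast_nonneg _
  have hs0 : (0 : ℝ) ≤ s := Nat.cast_nonneg _
  have hC0 : (0 : ℝ) ≤ C₁ := Nat.cast_nonneg _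
  have hZ0 : (0 : ℝ) ≤ Z := Nat.cast_nonneg _
  -- the common bound
  set P : ℝ := 8 ^ (d + 1) * (K : ℝ) ^ (2 * s + 4) with hP
  have p8 : (1 : ℝ) ≤ 8 ^ (d + 1) := one_le_pow₀ (by norm_num)
  have pK : ∀ j ≤ 2 * s + 4, (K : ℝ) ^ j ≤ (K : ℝ) ^ (2 * s + 4) := fun j hj => pow_le_pow_right₀ hK1 hj
  have hPK : ∀ j ≤ 2 * s + 4, (K : ℝ) ^ j ≤ P := fun j hj => (pK j hj).trans (le_mul_of_one_le_left (by positivity) p8)
  have hPs : ((K : ℝ) + 1) ^ s ≤ 2 ^ s * (K : ℝ) ^ s := by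
    rw [← mul_pow]
    exact pow_le_pow_left₀ (by positivity) (by linarith) s
  have h8 : (8 : ℝ) ^ s ≤ 8 ^ (d + 1) := pow_le_pow_right₀ (by norm_num) hs
  have h2 : (2 : ℝ) ^ s ≤ 8 ^ (d + 1) := (pow_le_pow_left₀ (by norm_num) (by norm_num) s).trans h8
  have e1 : ((K : ℝ) + 1) ^ s * (131072 * X * (d + 4) * (K : ℝ) ^ 4 * (4 * (K : ℝ)) ^ s) ≤ 131072 * Z * P := by
    calc ((K : ℝ) + 1) ^ s * (131072 * X * (d + 4) * (K : ℝ) ^ 4 * (4 * (K : ℝ)) ^ s)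
        ≤ (2 ^ s * (K : ℝ) ^ s) * (131072 * X * (d + 4) * (K : ℝ) ^ 4 * (4 * (K : ℝ)) ^ s) :=
          mul_le_mul_of_nonneg_right hPs (by positivity)
      _ = 131072 * (X * (d + 4)) * (8 ^ s * (K : ℝ) ^ (2 * s + 4)) := by
          have h84 : (8 : ℝ) ^ s = 2 ^ s * 4 ^ s := by rw [← mul_pow]; norm_num
          rw [h84, mul_pow, pow_add, pow_mul', sq]
          ring
      _ ≤ 131072 * Z * (8 ^ (d + 1) * (K : ℝ) ^ (2 * s + 4)) := by
          have h3 : (X : ℝ) * (d + 4) ≤ Z := by nlinarith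
          gcongr
      _ = 131072 * Z * P := by rw [hP]
  have e2 : ((K : ℝ) + 1) ^ s * (2 * d) ≤ 2 * Z * P := by
    have h3 : (d : ℝ) ≤ Z := by nlinarith
    calc ((K : ℝ) + 1) ^ s * (2 * d) ≤ (2 ^ s * (K : ℝ) ^ s) * (2 * d) := mul_le_mul_of_nonneg_right hPs (by positivity)
      _ ≤ (8 ^ (d + 1) * (K : ℝ) ^ (2 * s + 4)) * (2 * Z) := by
          have h4 := pK s (by omega)
          gcongr
      _ = 2 * Z * P := by rw [hP]; ring
  have e3 : 2 * s * T * (1 / 2 : ℝ) ^ K ≤ 2 * Z * P := by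
    have h3 : (s : ℝ) * X ≤ Z := by nlinarith
    calc 2 * s * T * (1 / 2 : ℝ) ^ K ≤ 2 * s * (2 ^ K * (X * (K : ℝ) ^ 3)) * (1 / 2 : ℝ) ^ K := by gcongr
      _ = 2 * (s * X) * (K : ℝ) ^ 3 * (2 ^ K * (1 / 2 : ℝ) ^ K) := by ring
      _ = 2 * (s * X) * (K : ℝ) ^ 3 := by rw [← mul_pow]; norm_num
      _ ≤ 2 * Z * P := by
          have h4 := hPK 3 (by omega)
          gcongr
  have e4 : 2 * (B₁ : ℝ) ≤ 4 * Z * P := by
    rw [hB]
    have h3 : ((d : ℝ) + 4) * K ≤ (K : ℝ) ^ 2 := by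
      have : (d : ℝ) + 4 ≤ K := by nlinarith
      nlinarith
    have h4 : (X : ℝ) ≤ Z := by nlinarith
    calc 2 * ((X : ℝ) * (C₁ * ((d + 4) * K) + 1)) = 2 * ((X * C₁) * ((d + 4) * K)) + 2 * X := by ring
      _ ≤ 2 * (Z * P) + 2 * (Z * P) := by
          have h5 := hPK 2 (by omega)
          have h6 := hPK 0 (by omega)
          rw [pow_zero] at h6
          have h7 : (X : ℝ) * C₁ * ((d + 4) * K) ≤ Z * P := mul_le_mul hXC' (h3.trans h5) (by positivity) hZ0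
          have h8 : (X : ℝ) ≤ Z * P := h4.trans (le_mul_of_one_le_right hZ0 h6)
          linarith
      _ = 4 * Z * P := by ring
  have hPpos : 0 ≤ P := by positivity
  push_cast
  rw [hEm, mul_add] at hS0
  have h9 : (Z : ℝ) * P ≥ 0 := by positivity
  calc S0 ≤ 131072 * Z * P + 2 * Z * P + 2 * Z * P + 4 * Z * P := by linarith
    _ ≤ 2 ^ 30 * (Z * P) := by nlinarith
    _ = _ := by rw [hP]; ring

theorem cls6 (hF : F.Ok) (hK : F.Big K) (S : F.St K a₀ ℓst) (hℓ : 0 < ℓ) (hst : ℓ ≤ ℓst) (hx : x ∈ Set.Icc a₀ (a₀ + ℓst))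
    {s : ℕ} (hs : s ≤ F.d + 1) (hT : F.T K a₀ ℓst ℓ ≤ 2 ^ K * (F.X * K ^ 3))
    (hsum : ∀ q ∈ Qs F.d K, |∑ j ∈ Finset.range (F.T K a₀ ℓst ℓ), ∏ i : Fin (F.d + 1), hr (q i) (F.U K a₀ ℓst (j + i) x)| ≤
      131072 * F.X * (F.d + 4) * (K : ℝ) ^ 4 * (4 * (K : ℝ)) ^ dm q)
    (α γ : Fin s → ℝ) (hαγ : ∀ i, 0 ≤ α i ∧ α i ≤ γ i ∧ γ i ≤ 1) :
    |(((Finset.Ico (nuP F.A₀ 1 1 x ℓst) (nuP F.A₀ 1 1 x ℓ)).filter fun n : ℕ =>
        ∀ i : Fin s, α i ≤ Int.fract (Uf F.A₀ F.c (n + i) x) ∧ Int.fract (Uf F.A₀ F.c (n + i) x) < γ i).card : ℝ) -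
      ((nuP F.A₀ 1 1 x ℓ : ℝ) - nuP F.A₀ 1 1 x ℓst) * ∏ i, (γ i - α i)| ≤ cF F * (K : ℝ) ^ (2 * s + 4) := by
  have hK12 := num_K hK
  obtain ⟨-, -, hZK⟩ := num_Z hK
  obtain ⟨-, -, -, -, -, -, -, -, -, -, hXd, hXC⟩ := num_le F
  have hK1 : (1 : ℝ) ≤ K := by
    have : 1 ≤ K := by omega
    exact_mod_cast this
  have hx1 : 1 < x := hF.h1.trans_le (S.lo.trans hx.1)
  -- the two intervals of times
  have hT2 : F.T K a₀ ℓst ℓ ≤ 2 ^ (2 * K) := by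
    refine hT.trans ?_
    have h1 : F.X * K ^ 3 ≤ 2 ^ K := by
      have h2 := (num_pow hK).1
      have h3 : F.X ≤ K := by
        have := (num_le F).1
        omega
      calc F.X * K ^ 3 ≤ K * K ^ 3 := Nat.mul_le_mul_right _ h3
        _ = K ^ 4 := by ring
        _ ≤ K ^ 20 := Nat.pow_le_pow_right (by omega) (by norm_num)
        _ ≤ 2 ^ K := h2
    calc 2 ^ K * (F.X * K ^ 3) ≤ 2 ^ K * 2 ^ K := Nat.mul_le_mul_left _ h1
      _ = 2 ^ (2 * K) := by rw [← pow_add]; congr 1; omega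
  have hTst : F.T K a₀ ℓst ℓst ≤ 2 ^ (2 * K) := by rw [T_start]; exact Nat.zero_le _
  obtain ⟨n1, n2⟩ := nu_T hF hK S hℓ hst hT2 hx
  obtain ⟨m1, m2⟩ := nu_T hF hK S S.pos le_rfl hTst hx
  have hN : Tt F.A₀ (F.Th K) a₀ ℓst ≤ Tt F.A₀ (F.Th K) a₀ ℓ :=
    Tt_mono hF S.lo hℓ hst (by unfold Pm.Th; positivity)
  set N₁ := Tt F.A₀ (F.Th K) a₀ ℓst with hN₁
  set N₂ := Tt F.A₀ (F.Th K) a₀ ℓ with hN₂
  set T := F.T K a₀ ℓst ℓ with hTdef
  have hTN : N₂ = N₁ + T := by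
    have : T = N₂ - N₁ := rfl
    omega
  set B₁ := F.X * (F.C₁ * F.E K + 1) with hB₁
  -- the sums
  set Em : ℝ := 131072 * F.X * (F.d + 4) * (K : ℝ) ^ 4 * (4 * (K : ℝ)) ^ s with hEm
  have hEm0 : 0 ≤ Em := by positivity
  have hsum2 : ∀ q ∈ Qs F.d K, dm q ≤ s → |∑ n ∈ Finset.Ico N₁ N₂, ∏ i : Fin (F.d + 1), hr (q i) (Uf F.A₀ F.c (n + i) x)| ≤ Em := by
    intro q hq hqs
    have h1 := hsum q hq
    have h2 : ∑ n ∈ Finset.Ico N₁ N₂, ∏ i : Fin (F.d + 1), hr (q i) (Uf F.A₀ F.c (n + i) x) =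
        ∑ j ∈ Finset.range T, ∏ i : Fin (F.d + 1), hr (q i) (F.U K a₀ ℓst (j + i) x) := by
      rw [hTN, Finset.sum_Ico_eq_sum_range, Nat.add_sub_cancel_left]
      refine sum_congr rfl fun j _ => prod_congr rfl fun i _ => ?_
      unfold Pm.U
      rw [add_assoc]
    rw [h2]
    refine h1.trans ?_
    rw [hEm]
    have h3 : (4 * (K : ℝ)) ^ dm q ≤ (4 * (K : ℝ)) ^ s := pow_le_pow_right₀ (by linarith) hqs
    exact mul_le_mul_of_nonneg_left h3 (by positivity)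
  have hdisc := disc6 (K := K) hN (fun n => Uf F.A₀ F.c n x) (Em := Em + 2 * F.d) (by positivity)
    (fun q hq hq0 => Pool.Agent.Helper94.LD6.shift6 hs hN (fun n => Uf F.A₀ F.c n x) hsum2 hq hq0) α γ hαγ
  -- change of the intervals
  set v : ℝ := ∏ i, (γ i - α i) with hv
  have hv0 : 0 ≤ v := prod_nonneg fun i _ => sub_nonneg.2 (hαγ i).2.1
  have hv1 : v ≤ 1 := prod_le_one (fun i _ => sub_nonneg.2 (hαγ i).2.1) fun i _ => by linarith [(hαγ i).1, (hαγ i).2.2]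
  have hνν : nuP F.A₀ 1 1 x ℓst ≤ nuP F.A₀ 1 1 x ℓ := by
    refine nuP_le hF.hA hx1 hst ?_
    have hb := Tt_ge hF (S.lo.trans hx.1) hℓ (Θ := 1) (le_refl (Tt F.A₀ 1 x ℓ))
    refine ⟨Tt F.A₀ 1 x ℓ, ?_⟩
    rw [Set.mem_ofPred_eq, one_mul, ← Vf_fp (by linarith)]
    exact hb
  set Qp : ℕ → Prop := fun n : ℕ => ∀ i : Fin s, α i ≤ Int.fract (Uf F.A₀ F.c (n + i) x) ∧ Int.fract (Uf F.A₀ F.c (n + i) x) < γ i with hQp
  have c1 := count_shift Qp hv0 hv1 n1 n2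
  have c2 := count_shift Qp hv0 hv1 m1 m2
  have c3 := count_Ico Qp hνν
  have c4 := count_Ico Qp hN
  have hTr : ((N₂ : ℝ) - N₁) = T := by rw [hTN]; push_cast; ring
  rw [hTr] at hdisc
  refine cls_num (T := T) (B₁ := B₁) (Em := Em + 2 * F.d) (by omega) hZK hXd hXC hs rfl ?_ ?_ ?_
  · exact_mod_cast hT
  · rw [hB₁]
    unfold Pm.E
    push_cast
    ring
  · rw [c3]
    rw [c4] at hdisc
    rw [abs_le] at c1 c2 hdisc ⊢
    have hTr' : (T : ℝ) * v = N₂ * v - N₁ * v := by rw [← hTr]; ring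
    constructor <;> nlinarith [c1.1, c1.2, c2.1, c2.2, hdisc.1, hdisc.2]

end

end Pool.Agent.Helper59.LD6
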